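import Pool.Agent.W648.UN.Stm

/-!
# UN-HB : Hoelder continuity of `Ups`, `Tau` at `b = 0`
-/

set_option autoImplicit false
set_option linter.unusedSectionVars false

open MeasureTheory Set Filter Topology

noncomputable section

namespace Pool.Agent.W475.UN.HB

open Pool.Agent.W648.UN

attribute [local irreducible] Pool.Agent.W648.UN.D

/-- fourth root of `1 - x` -/
def T (x : ℝ) : ℝ := (1 - x) ^ (1 / 4 : ℝ)

lemma T_pos {x : ℝ} (hx : x < 1) : 0 < T x := Real.rpow_pos_of_pos (by linarith) _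

lemma T_le {x : ℝ} (hx : x ∈ Ico (0 : ℝ) 1) : T x ≤ 1 :=
  Real.rpow_le_one (by linarith [hx.2]) (by linarith [hx.1]) (by norm_num)

lemma T4 {x : ℝ} (hx : x < 1) : T x ^ 4 = 1 - x := by
  unfold T
  rw [← Real.rpow_natCast, ← Real.rpow_mul (by linarith)]
  norm_num

lemma gT {x : ℝ} (hx : x < 1) : (1 - x) ^ (-(3 / 4) : ℝ) = (T x ^ 3)⁻¹ := by
  unfold T
  rw [Real.rpow_neg (by linarith), ← Real.rpow_natCast, ← Real.rpow_mul (by linarith)]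
  norm_num

lemma T_anti {x s : ℝ} (hxs : x ≤ s) (hs : s < 1) : T s ≤ T x :=
  Real.rpow_le_rpow (by linarith) (by linarith) (by norm_num)

lemma g_int : IntegrableOn (fun s : ℝ => (1 - s) ^ (-(3 / 4) : ℝ)) (Ioo (0 : ℝ) 1) ∧
    ∫ s in Ioo (0 : ℝ) 1, (1 - s) ^ (-(3 / 4) : ℝ) = 4 := by
  have h1 : IntervalIntegrable (fun s : ℝ => s ^ (-(3 / 4) : ℝ)) volume 0 1 :=
    intervalIntegral.intervalIntegrable_rpow' (by norm_num)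
  have h2 : IntervalIntegrable (fun s : ℝ => (1 - s) ^ (-(3 / 4) : ℝ)) volume 0 1 := by
    have := h1.comp_sub_left 1
    simpa using this.symm
  constructor
  · rw [intervalIntegrable_iff_integrableOn_Ioo_of_le (by norm_num)] at h2
    exact h2
  · rw [← integral_Ioc_eq_integral_Ioo, ← intervalIntegral.integral_of_le (by norm_num)]
    rw [intervalIntegral.integral_comp_sub_left (fun s : ℝ => s ^ (-(3 / 4) : ℝ)) 1]
    rw [integral_rpow (by left; norm_num)]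
    norm_num

section abs

variable {A : Type} [NormedCommRing A] [NormedAlgebra ℂ A] [CompleteSpace A] [NormOneClass A]

lemma int_eq {x : ℝ} (hx : x ∈ Ico (0 : ℝ) 1) (f : ℝ → A) :
    ∫ s in x..1, f s = ∫ s in Ioo x 1, f s := by
  rw [intervalIntegral.integral_of_le hx.2.le, integral_Ioc_eq_integral_Ioo]

lemma sub_Ioo {x : ℝ} (hx : x ∈ Ico (0 : ℝ) 1) : Ioo x 1 ⊆ Ioo (0 : ℝ) 1 :=
  fun _ h => ⟨lt_of_le_of_lt hx.1 h.1, h.2⟩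

lemma H_meas {H : ℝ → A} {η : ℝ} (h : NB H η) {x : ℝ} (hx : x ∈ Ico (0 : ℝ) 1) :
    AEStronglyMeasurable H (volume.restrict (Ioo x 1)) :=
  h.1.mono_measure (Measure.restrict_mono (sub_Ioo hx) le_rfl)

lemma c_meas {f : ℝ → A} (h : ContinuousOn f (Ico (0 : ℝ) 1)) {x : ℝ} (hx : x ∈ Ico (0 : ℝ) 1) :
    AEStronglyMeasurable f (volume.restrict (Ioo x 1)) :=
  (h.mono (fun _ hs => ⟨hx.1.trans hs.1.le, hs.2⟩)).aestronglyMeasurable measurableSet_Ioo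

lemma c_measC {f : ℝ → ℂ} (h : ContinuousOn f (Ico (0 : ℝ) 1)) {x : ℝ} (hx : x ∈ Ico (0 : ℝ) 1) :
    AEStronglyMeasurable f (volume.restrict (Ioo x 1)) :=
  (h.mono (fun _ hs => ⟨hx.1.trans hs.1.le, hs.2⟩)).aestronglyMeasurable measurableSet_Ioo

/-- `H` itself: integrability of `(1-s)^{-3/4} H` -/
lemma HG {H : ℝ → A} (h : NB H (1 / 20)) {x : ℝ} (hx : x ∈ Ico (0 : ℝ) 1) :
    IntegrableOn (fun s : ℝ => ‖H s‖ * (1 - s) ^ (-(3 / 4) : ℝ)) (Ioo x 1) ∧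
    ∫ s in Ioo x 1, ‖H s‖ * (1 - s) ^ (-(3 / 4) : ℝ) ≤ 1 / 20 := by
  refine ⟨h.2.1.mono_set (sub_Ioo hx), ?_⟩
  refine le_trans ?_ h.2.2
  apply setIntegral_mono_set h.2.1
  · rw [EventuallyLE, ae_restrict_iff' measurableSet_Ioo]
    refine Eventually.of_forall fun s hs => ?_
    have : (0 : ℝ) ≤ (1 - s) ^ (-(3 / 4) : ℝ) := Real.rpow_nonneg (by linarith [hs.2]) _
    exact mul_nonneg (norm_nonneg _) this
  · exact (sub_Ioo hx).eventuallyLE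

/-- master bound 1 -/
lemma mb1 {H : ℝ → A} (h : NB H (1 / 20)) {x : ℝ} (hx : x ∈ Ico (0 : ℝ) 1) (f : ℝ → A)
    (hf : AEStronglyMeasurable f (volume.restrict (Ioo x 1))) (K : ℝ) (hK : 0 ≤ K)
    (hb : ∀ s ∈ Ioo x 1, ‖f s‖ ≤ K * (‖H s‖ * (1 - s) ^ (-(3 / 4) : ℝ))) :
    IntegrableOn f (Ioo x 1) ∧ ‖∫ s in Ioo x 1, f s‖ ≤ K / 20 := by
  obtain ⟨h1, h2⟩ := HG h hx
  have hb' : ∀ᵐ s ∂(volume.restrict (Ioo x 1)),
      ‖f s‖ ≤ K * (‖H s‖ * (1 - s) ^ (-(3 / 4) : ℝ)) := by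
    rw [ae_restrict_iff' measurableSet_Ioo]
    exact Eventually.of_forall hb
  refine ⟨Integrable.mono' (h1.const_mul K) hf hb', ?_⟩
  refine (norm_integral_le_of_norm_le (h1.const_mul K) hb').trans ?_
  rw [integral_const_mul]
  calc _ ≤ K * (1 / 20) := mul_le_mul_of_nonneg_left h2 hK
    _ = K / 20 := by ring

/-- master bound 2 -/
lemma mb2 {x : ℝ} (hx : x ∈ Ico (0 : ℝ) 1) (f : ℝ → A)
    (hf : AEStronglyMeasurable f (volume.restrict (Ioo x 1))) (K : ℝ) (hK : 0 ≤ K)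
    (hb : ∀ s ∈ Ioo x 1, ‖f s‖ ≤ K * (1 - s) ^ (-(3 / 4) : ℝ)) :
    IntegrableOn f (Ioo x 1) ∧ ‖∫ s in Ioo x 1, f s‖ ≤ K * 4 := by
  have h1 : IntegrableOn (fun s : ℝ => (1 - s) ^ (-(3 / 4) : ℝ)) (Ioo x 1) :=
    g_int.1.mono_set (sub_Ioo hx)
  have h2 : ∫ s in Ioo x 1, (1 - s) ^ (-(3 / 4) : ℝ) ≤ 4 := by
    refine le_trans ?_ g_int.2.le
    apply setIntegral_mono_set g_int.1
    · rw [EventuallyLE, ae_restrict_iff' measurableSet_Ioo]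
      refine Eventually.of_forall fun s hs => ?_
      exact Real.rpow_nonneg (by linarith [hs.2]) _
    · exact (sub_Ioo hx).eventuallyLE
  have hb' : ∀ᵐ s ∂(volume.restrict (Ioo x 1)), ‖f s‖ ≤ K * (1 - s) ^ (-(3 / 4) : ℝ) := by
    rw [ae_restrict_iff' measurableSet_Ioo]
    exact Eventually.of_forall hb
  refine ⟨Integrable.mono' (h1.const_mul K) hf hb', ?_⟩
  refine (norm_integral_le_of_norm_le (h1.const_mul K) hb').trans ?_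
  rw [integral_const_mul]
  exact mul_le_mul_of_nonneg_left h2 hK

/-- master bound 3 : with the gain `T x ^ 3` -/
lemma mb3 {H : ℝ → A} (h : NB H (1 / 20)) {x : ℝ} (hx : x ∈ Ico (0 : ℝ) 1) (f : ℝ → A)
    (hf : AEStronglyMeasurable f (volume.restrict (Ioo x 1))) (K : ℝ) (hK : 0 ≤ K)
    (hb : ∀ s ∈ Ioo x 1, ‖f s‖ ≤ K * ‖H s‖) :
    IntegrableOn f (Ioo x 1) ∧ ‖∫ s in Ioo x 1, f s‖ ≤ K * T x ^ 3 / 20 := by
  have hT : 0 < T x := T_pos hx.2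
  refine mb1 h hx f hf (K * T x ^ 3) (by positivity) fun s hs => (hb s hs).trans ?_
  rw [gT hs.2, mul_assoc]
  refine mul_le_mul_of_nonneg_left ?_ hK
  have hTs : 0 < T s := T_pos hs.2
  have h2 : T s ≤ T x := T_anti hs.1.le hs.2
  have h3 : 1 ≤ T x ^ 3 * (T s ^ 3)⁻¹ := by
    rw [← div_eq_mul_inv, one_le_div (by positivity)]
    exact pow_le_pow_left₀ hTs.le h2 3
  calc ‖H s‖ = ‖H s‖ * 1 := by ring
    _ ≤ ‖H s‖ * (T x ^ 3 * (T s ^ 3)⁻¹) := mul_le_mul_of_nonneg_left h3 (norm_nonneg _)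
    _ = _ := by ring

/-- sup trick -/
lemma sup_trick (f : ℝ → ℝ) (M θ c : ℝ) (hM : ∀ x ∈ Ico (0 : ℝ) 1, f x ≤ M) (h1 : θ < 1)
    (h : ∀ S, (∀ x ∈ Ico (0 : ℝ) 1, f x ≤ S) → ∀ x ∈ Ico (0 : ℝ) 1, f x ≤ θ * S + c) :
    ∀ x ∈ Ico (0 : ℝ) 1, f x ≤ c / (1 - θ) := by
  have hb : BddAbove (f '' Ico (0 : ℝ) 1) := ⟨M, by rintro _ ⟨x, hx, rfl⟩; exact hM x hx⟩
  have hne : (f '' Ico (0 : ℝ) 1).Nonempty := ⟨f 0, 0, by simp, rfl⟩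
  set S := sSup (f '' Ico (0 : ℝ) 1) with hS
  have h2 : ∀ x ∈ Ico (0 : ℝ) 1, f x ≤ S := fun x hx => le_csSup hb ⟨x, hx, rfl⟩
  have h3 : S ≤ θ * S + c := csSup_le hne (by rintro _ ⟨x, hx, rfl⟩; exact h S h2 x hx)
  intro x hx
  rw [le_div_iff₀ (by linarith)]
  have := h2 x hx
  nlinarith [h2 x hx]

end abs

lemma zero_Om : (0 : ℂ) ∈ Om := by simp [Om]

/-- fourth root of the norm of `b` -/
def R (b : ℂ) : ℝ := ‖b‖ ^ (1 / 4 : ℝ)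

lemma R4 (b : ℂ) : R b ^ 4 = ‖b‖ := by
  unfold R
  rw [← Real.rpow_natCast, ← Real.rpow_mul (norm_nonneg _)]
  norm_num

lemma R_nonneg (b : ℂ) : 0 ≤ R b := Real.rpow_nonneg (norm_nonneg _) _

lemma sq_le_help {a c : ℝ} (hc : 0 ≤ c) (h : a ^ 2 ≤ c ^ 2) : a ≤ c := by
  by_contra hlt
  push Not at hlt
  nlinarith

lemma d_lower (hD : S_D) {b : ℂ} (hb : b ∈ Om) {x : ℝ} (hx : x ∈ Ico (0 : ℝ) 1) :
    D b x ≠ 0 ∧ T x ^ 2 ≤ ‖D b x‖ ∧ R b ^ 2 ≤ ‖D b x‖ ∧ ‖(D b x)⁻¹‖ ≤ (T x ^ 2)⁻¹ := by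
  obtain ⟨h1, -, h2, h3, -⟩ := hD.1 b hb x hx
  have hT := T_pos hx.2
  have h4 : T x ^ 2 ≤ ‖D b x‖ := sq_le_help (norm_nonneg _) (by
    have := T4 hx.2
    nlinarith)
  have h5 : R b ^ 2 ≤ ‖D b x‖ := sq_le_help (norm_nonneg _) (by
    have := R4 b
    nlinarith)
  refine ⟨h1, h4, h5, ?_⟩
  rw [norm_inv]
  exact inv_anti₀ (by positivity) h4

lemma d_up (hD : S_D) {b : ℂ} (hb : b ∈ Om) {x : ℝ} (hx : x ∈ Ico (0 : ℝ) 1) {s : ℝ}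
    (hs : s ∈ Icc x 1) : ‖D b s‖ ≤ (6 / 5) * ‖D b x‖ := by
  refine (hD.2.1 b hb x hx s hs).trans (mul_le_mul_of_nonneg_right ?_ (norm_nonneg _))
  have h0 : (0 : ℝ) ≤ (2 : ℝ) ^ (1 / 4 : ℝ) := Real.rpow_nonneg (by norm_num) _
  have h4 : ((2 : ℝ) ^ (1 / 4 : ℝ)) ^ 4 = 2 := by
    rw [← Real.rpow_natCast, ← Real.rpow_mul (by norm_num)]
    norm_num
  by_contra hlt
  push Not at hlt
  have : ((6 : ℝ) / 5) ^ 4 < ((2 : ℝ) ^ (1 / 4 : ℝ)) ^ 4 :=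
    pow_lt_pow_left₀ hlt (by norm_num) (by norm_num)
  rw [h4] at this
  norm_num at this

lemma Dsub (hD : S_D) {b : ℂ} (hb : b ∈ Om) (hR : 0 < R b) {x : ℝ} (hx : x ∈ Ico (0 : ℝ) 1) :
    ‖D b x - D 0 x‖ ≤ (10 / 9) * R b ^ 2 := by
  obtain ⟨h1, h2, -, -, h3⟩ := hD.1 b hb x hx
  obtain ⟨h1', h2', -, -, h3'⟩ := hD.1 0 zero_Om x hx
  obtain ⟨-, -, h4, -⟩ := d_lower hD hb hx
  have e1 : (D b x - D 0 x) * (D b x + D 0 x) = b := by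
    have : (D b x - D 0 x) * (D b x + D 0 x) = D b x ^ 2 - D 0 x ^ 2 := by ring
    rw [this, h2, h2']
    ring
  have e2 : (9 / 10) * R b ^ 2 ≤ ‖D b x + D 0 x‖ := by
    refine le_trans ?_ (Complex.re_le_norm _)
    rw [Complex.add_re]
    have := norm_nonneg (D 0 x)
    nlinarith
  have e3 : ‖D b x - D 0 x‖ * ‖D b x + D 0 x‖ = R b ^ 4 := by
    rw [← norm_mul, e1, R4]
  have e4 : ‖D b x - D 0 x‖ * ((9 / 10) * R b ^ 2) ≤ R b ^ 4 := by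
    rw [← e3]
    exact mul_le_mul_of_nonneg_left e2 (norm_nonneg _)
  have hR2 : 0 < R b ^ 2 := by positivity
  have e5 : (‖D b x - D 0 x‖ * (9 / 10)) * R b ^ 2 ≤ R b ^ 2 * R b ^ 2 := by nlinarith
  have e6 := le_of_mul_le_mul_right e5 hR2
  linarith

lemma Dinvsub (hD : S_D) {b : ℂ} (hb : b ∈ Om) (hR : 0 < R b) {x : ℝ}
    (hx : x ∈ Ico (0 : ℝ) 1) : ‖(D b x)⁻¹ - (D 0 x)⁻¹‖ ≤ 2 * R b * (T x ^ 3)⁻¹ := by
  obtain ⟨h1, -, -, h2⟩ := d_lower hD hb hx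
  obtain ⟨h1', -, -, h2'⟩ := d_lower hD zero_Om hx
  have hT := T_pos hx.2
  rcases le_total (T x) (R b) with h | h
  · calc ‖(D b x)⁻¹ - (D 0 x)⁻¹‖ ≤ ‖(D b x)⁻¹‖ + ‖(D 0 x)⁻¹‖ := norm_sub_le _ _
      _ ≤ (T x ^ 2)⁻¹ + (T x ^ 2)⁻¹ := add_le_add h2 h2'
      _ = 2 * T x * (T x ^ 3)⁻¹ := by field_simp; norm_num
      _ ≤ 2 * R b * (T x ^ 3)⁻¹ := by gcongr
  · have e : (D b x)⁻¹ - (D 0 x)⁻¹ = -(D b x - D 0 x) * ((D b x)⁻¹ * (D 0 x)⁻¹) := by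
      field_simp
      ring
    rw [e, norm_mul, norm_mul, norm_neg]
    calc ‖D b x - D 0 x‖ * (‖(D b x)⁻¹‖ * ‖(D 0 x)⁻¹‖)
        ≤ ((10 / 9) * R b ^ 2) * ((T x ^ 2)⁻¹ * (T x ^ 2)⁻¹) := by
          gcongr
          exact Dsub hD hb hR hx
      _ = (10 / 9) * R b * (R b / T x) * (T x ^ 3)⁻¹ := by field_simp
      _ ≤ 2 * R b * 1 * (T x ^ 3)⁻¹ := by
          gcongr
          · norm_num
          · exact (div_le_one hT).2 h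
      _ = _ := by ring

lemma Dker (hD : S_D) {b : ℂ} (hb : b ∈ Om) (hR : 0 < R b) {x : ℝ}
    (hx : x ∈ Ico (0 : ℝ) 1) {s : ℝ} (hs : s ∈ Ioo x 1) :
    ‖(D b x)⁻¹ ^ 2 * D b s - (D 0 x)⁻¹ ^ 2 * D 0 s‖ ≤
      (10 / 9) * R b ^ 2 * (T x ^ 4)⁻¹ + (6 / 5) * R b ^ 4 * (T x ^ 6)⁻¹ := by
  have hs' : s ∈ Ico (0 : ℝ) 1 := ⟨hx.1.trans hs.1.le, hs.2⟩
  obtain ⟨h1, -, -, h2⟩ := d_lower hD hb hx
  obtain ⟨h1', -, -, h2'⟩ := d_lower hD zero_Om hx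
  have hT := T_pos hx.2
  have e : (D b x)⁻¹ ^ 2 * D b s - (D 0 x)⁻¹ ^ 2 * D 0 s =
      (D b x)⁻¹ ^ 2 * (D b s - D 0 s) + ((D b x)⁻¹ ^ 2 - (D 0 x)⁻¹ ^ 2) * D 0 s := by ring
  rw [e]
  refine (norm_add_le _ _).trans (add_le_add ?_ ?_)
  · rw [norm_mul, norm_pow]
    calc ‖(D b x)⁻¹‖ ^ 2 * ‖D b s - D 0 s‖ ≤ ((T x ^ 2)⁻¹) ^ 2 * ((10 / 9) * R b ^ 2) := by
          gcongr
          exact Dsub hD hb hR hs'
      _ = _ := by field_simp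
  · have e2 : (D b x)⁻¹ ^ 2 - (D 0 x)⁻¹ ^ 2 = - b * ((D b x)⁻¹ ^ 2 * (D 0 x)⁻¹ ^ 2) := by
      have h3 := (hD.1 b hb x hx).2.1
      have h3' := (hD.1 0 zero_Om x hx).2.1
      have h4 : b = D b x ^ 2 - D 0 x ^ 2 := by rw [h3, h3']; ring
      rw [inv_pow, inv_pow]
      have h5 : D b x ^ 2 ≠ 0 := pow_ne_zero _ h1
      have h5' : D 0 x ^ 2 ≠ 0 := pow_ne_zero _ h1'
      rw [← mul_inv, ← div_eq_mul_inv, eq_div_iff (mul_ne_zero h5 h5')]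
      have h6 : ((D b x ^ 2)⁻¹ - (D 0 x ^ 2)⁻¹) * (D b x ^ 2 * D 0 x ^ 2) =
        D 0 x ^ 2 - D b x ^ 2 := by
        field_simp
      rw [h6]
      linear_combination h4
    rw [e2, norm_mul, norm_mul, norm_mul, norm_neg, norm_pow, norm_pow, ← R4]
    calc R b ^ 4 * (‖(D b x)⁻¹‖ ^ 2 * ‖(D 0 x)⁻¹‖ ^ 2) * ‖D 0 s‖
        ≤ R b ^ 4 * (((T x ^ 2)⁻¹) ^ 2 * ‖(D 0 x)⁻¹‖ ^ 2) * ((6 / 5) * ‖D 0 x‖) := by
          gcongr
          exact d_up hD zero_Om hx ⟨hs.1.le, hs.2.le⟩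
      _ = (6 / 5) * R b ^ 4 * ((T x ^ 4)⁻¹ * (‖(D 0 x)⁻¹‖ * (‖(D 0 x)⁻¹‖ * ‖D 0 x‖))) := by
          field_simp
      _ = (6 / 5) * R b ^ 4 * ((T x ^ 4)⁻¹ * ‖(D 0 x)⁻¹‖) := by
          rw [norm_inv, inv_mul_cancel₀ (norm_ne_zero_iff.2 h1'), mul_one]
      _ ≤ (6 / 5) * R b ^ 4 * ((T x ^ 4)⁻¹ * (T x ^ 2)⁻¹) := by gcongr
      _ = _ := by field_simp

section main

variable {A : Type} [NormedCommRing A] [NormedAlgebra ℂ A] [CompleteSpace A] [NormOneClass A]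

lemma D_cont (hD : S_D) {b : ℂ} (hb : b ∈ Om) : ContinuousOn (fun s : ℝ => D b s) (Ico (0 : ℝ) 1) := by
  have h := hD.2.2.1
  have h2 : ContinuousOn (fun s : ℝ => ((b, s) : ℂ × ℝ)) (Ico (0 : ℝ) 1) :=
    (continuous_const.prodMk continuous_id).continuousOn
  exact ContinuousOn.comp (g := fun z : ℂ × ℝ => D z.1 z.2) (f := fun s : ℝ => ((b, s) : ℂ × ℝ))
    h h2 (fun s hs => ⟨hb, hs⟩)

lemma p_le {H : ℝ → A} {b : ℂ} {p q E : ℝ → A} (hs : Sol H b p q E) {x : ℝ}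
    (hx : x ∈ Ico (0 : ℝ) 1) : ‖p x‖ ≤ 5 / 4 := by
  have h := hs.bp x hx
  calc ‖p x‖ = ‖(p x - 1) + 1‖ := by rw [sub_add_cancel]
    _ ≤ ‖p x - 1‖ + ‖(1 : A)‖ := norm_add_le _ _
    _ ≤ 1 / 4 + 1 := by rw [norm_one]; linarith
    _ = 5 / 4 := by norm_num

lemma E_le {H : ℝ → A} {b : ℂ} {p q E : ℝ → A} (hs : Sol H b p q E) {x : ℝ}
    (hx : x ∈ Ico (0 : ℝ) 1) : ‖E x‖ ≤ 5 / 4 := by
  have h := hs.bE x hx
  calc ‖E x‖ = ‖(E x - 1) + 1‖ := by rw [sub_add_cancel]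
    _ ≤ ‖E x - 1‖ + ‖(1 : A)‖ := norm_add_le _ _
    _ ≤ 1 / 4 + 1 := by rw [norm_one]; linarith
    _ = 5 / 4 := by norm_num

lemma q_le {H : ℝ → A} {b : ℂ} {p q E : ℝ → A} (hs : Sol H b p q E) {x : ℝ}
    (hx : x ∈ Ico (0 : ℝ) 1) : ‖q x‖ ≤ 4 / 3 := by
  have h := hs.bp x hx
  have e : q x = 1 - (p x - 1) * q x := by
    have := hs.pq x hx
    linear_combination this
  have h2 : ‖q x‖ ≤ 1 + 1 / 4 * ‖q x‖ := by
    calc ‖q x‖ = ‖1 - (p x - 1) * q x‖ := by rw [← e]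
      _ ≤ ‖(1 : A)‖ + ‖(p x - 1) * q x‖ := norm_sub_le _ _
      _ ≤ 1 + ‖p x - 1‖ * ‖q x‖ := by
          rw [norm_one]
          linarith [norm_mul_le (p x - 1) (q x)]
      _ ≤ 1 + 1 / 4 * ‖q x‖ := by
          have := mul_le_mul_of_nonneg_right h (norm_nonneg (q x))
          linarith
  linarith

/-- the kernel integrand of the `p` equation -/
lemma kp_meas (hD : S_D) {H : ℝ → A} (hN : NB H (1 / 20)) {b : ℂ} (hb : b ∈ Om) {p q E : ℝ → A}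
    (hs : Sol H b p q E) {x : ℝ} (hx : x ∈ Ico (0 : ℝ) 1) :
    AEStronglyMeasurable (fun s => D b s • (H s * p s)) (volume.restrict (Ioo x 1)) :=
  (c_measC (D_cont hD hb) hx).smul ((H_meas hN hx).mul (c_meas hs.cp hx))

lemma kp_bd (hD : S_D) {H : ℝ → A} {b : ℂ} (hb : b ∈ Om) {p q E : ℝ → A}
    (hs : Sol H b p q E) {x : ℝ} (hx : x ∈ Ico (0 : ℝ) 1) {s : ℝ} (hsx : s ∈ Ioo x 1) :
    ‖D b s • (H s * p s)‖ ≤ ((3 / 2) * ‖D b x‖) * ‖H s‖ := by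
  have hs' : s ∈ Ico (0 : ℝ) 1 := ⟨hx.1.trans hsx.1.le, hsx.2⟩
  rw [norm_smul]
  calc ‖D b s‖ * ‖H s * p s‖ ≤ ((6 / 5) * ‖D b x‖) * (‖H s‖ * ‖p s‖) := by
        gcongr
        · exact d_up hD hb hx ⟨hsx.1.le, hsx.2.le⟩
        · exact norm_mul_le _ _
    _ ≤ ((6 / 5) * ‖D b x‖) * (‖H s‖ * (5 / 4)) := by
        gcongr
        exact p_le hs hs'
    _ = _ := by ring

lemma e_le (hD : S_D) {H : ℝ → A} (hN : NB H (1 / 20)) {b : ℂ} (hb : b ∈ Om) {p q E : ℝ → A}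
    (hs : Sol H b p q E) {x : ℝ} (hx : x ∈ Ico (0 : ℝ) 1) : ‖p x - 1‖ ≤ T x / 10 := by
  have hT := T_pos hx.2
  obtain ⟨h0, -, -, hi⟩ := d_lower hD hb hx
  have h1 := (mb3 hN hx _ (kp_meas hD hN hb hs hx) ((3 / 2) * ‖D b x‖) (by positivity)
    (fun s hsx => kp_bd hD hb hs hx hsx)).2
  have h2 := hs.ep x hx
  rw [int_eq hx] at h2
  set I := ∫ s in Ioo x 1, D b s • (H s * p s) with hI
  have h3 : p x ^ 2 - 1 = (2 * (D b x)⁻¹ ^ 2) • I := by rw [h2]; ring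
  have h4 : ‖p x ^ 2 - 1‖ ≤ (3 / 20) * T x := by
    rw [h3, norm_smul, norm_mul, norm_pow]
    calc ‖(2 : ℂ)‖ * ‖(D b x)⁻¹‖ ^ 2 * ‖I‖
        ≤ 2 * ‖(D b x)⁻¹‖ ^ 2 * ((3 / 2) * ‖D b x‖ * T x ^ 3 / 20) := by
          rw [Complex.norm_two]
          gcongr
      _ = (3 / 20) * (‖(D b x)⁻¹‖ * (‖(D b x)⁻¹‖ * ‖D b x‖)) * T x ^ 3 := by ring
      _ = (3 / 20) * ‖(D b x)⁻¹‖ * T x ^ 3 := by
          rw [norm_inv, inv_mul_cancel₀ (norm_ne_zero_iff.2 h0), mul_one]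
      _ ≤ (3 / 20) * (T x ^ 2)⁻¹ * T x ^ 3 := by gcongr
      _ = _ := by field_simp
  have h5 := hs.bp x hx
  have e : (2 : ℂ) • (p x - 1) = (p x ^ 2 - 1) - (p x - 1) * (p x - 1) := by
    rw [two_smul]
    ring
  have h6 : 2 * ‖p x - 1‖ ≤ (3 / 20) * T x + 1 / 4 * ‖p x - 1‖ := by
    calc 2 * ‖p x - 1‖ = ‖(2 : ℂ) • (p x - 1)‖ := by rw [norm_smul, Complex.norm_two]
      _ = ‖(p x ^ 2 - 1) - (p x - 1) * (p x - 1)‖ := by rw [e]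
      _ ≤ ‖p x ^ 2 - 1‖ + ‖(p x - 1) * (p x - 1)‖ := norm_sub_le _ _
      _ ≤ (3 / 20) * T x + ‖p x - 1‖ * ‖p x - 1‖ := add_le_add h4 (norm_mul_le _ _)
      _ ≤ _ := by
          have := mul_le_mul_of_nonneg_right h5 (norm_nonneg (p x - 1))
          linarith
  linarith

/-- step for `p` -/
lemma p_step (hD : S_D) {H : ℝ → A} (hN : NB H (1 / 20)) {b : ℂ} (hb : b ∈ Om) (hR : 0 < R b)
    {p q E p0 q0 E0 : ℝ → A}
    (hs : Sol H b p q E) (hs0 : Sol H 0 p0 q0 E0) (S : ℝ)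
    (hS : ∀ x ∈ Ico (0 : ℝ) 1, ‖p x - p0 x‖ ≤ S) : ∀ x ∈ Ico (0 : ℝ) 1,
    ‖p x - p0 x‖ ≤ (1 / 10) * S + R b / 5 := by
  intro x hx
  have hT := T_pos hx.2
  have hT1 := T_le hx
  have hS0 : 0 ≤ S := (norm_nonneg _).trans (hS x hx)
  rcases le_total (T x) (R b) with hc | hc
  · have h1 := e_le hD hN hb hs hx
    have h2 := e_le hD hN zero_Om hs0 hx
    calc ‖p x - p0 x‖ = ‖(p x - 1) - (p0 x - 1)‖ := by congr 1; ring
      _ ≤ ‖p x - 1‖ + ‖p0 x - 1‖ := norm_sub_le _ _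
      _ ≤ T x / 10 + T x / 10 := add_le_add h1 h2
      _ ≤ R b / 5 := by linarith
      _ ≤ _ := by linarith
  · obtain ⟨h0, -, -, hi⟩ := d_lower hD hb hx
    obtain ⟨h0', -, -, hi'⟩ := d_lower hD zero_Om hx
    have hm := kp_meas hD hN hb hs hx
    have hm0 := kp_meas hD hN zero_Om hs0 hx
    have hI := (mb3 hN hx _ hm ((3 / 2) * ‖D b x‖) (by positivity)
      (fun s hsx => kp_bd hD hb hs hx hsx)).1
    have hI0 := (mb3 hN hx _ hm0 ((3 / 2) * ‖D 0 x‖) (by positivity)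
      (fun s hsx => kp_bd hD zero_Om hs0 hx hsx)).1
    have e1 := hs.ep x hx
    have e0 := hs0.ep x hx
    rw [int_eq hx, ← integral_smul] at e1 e0
    have hI2 : IntegrableOn (fun s => (2 * (D b x)⁻¹ ^ 2) • D b s • (H s * p s)) (Ioo x 1) := by
      have h := Integrable.smul (2 * (D b x)⁻¹ ^ 2) hI
      simpa only [Pi.smul_def, IntegrableOn] using h
    have hI3 : IntegrableOn (fun s => (2 * (D 0 x)⁻¹ ^ 2) • D 0 s • (H s * p0 s)) (Ioo x 1) := by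
      have h := Integrable.smul (2 * (D 0 x)⁻¹ ^ 2) hI0
      simpa only [Pi.smul_def, IntegrableOn] using h
    have hm2 : AEStronglyMeasurable (fun s => (2 * (D b x)⁻¹ ^ 2) • D b s • (H s * p s) -
        (2 * (D 0 x)⁻¹ ^ 2) • D 0 s • (H s * p0 s)) (volume.restrict (Ioo x 1)) :=
      (hm.const_smul _).sub (hm0.const_smul _)
    have e2 : p x ^ 2 - p0 x ^ 2 = ∫ s in Ioo x 1,
        ((2 * (D b x)⁻¹ ^ 2) • D b s • (H s * p s) - (2 * (D 0 x)⁻¹ ^ 2) • D 0 s • (H s * p0 s)) := by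
      rw [integral_sub hI2 hI3, e1, e0]
      ring
    have hK : 0 ≤ (12 / 5) * S * (T x ^ 2)⁻¹ + (25 / 9) * R b ^ 2 * (T x ^ 4)⁻¹ +
        3 * R b ^ 4 * (T x ^ 6)⁻¹ := by positivity
    have h3 : ‖p x ^ 2 - p0 x ^ 2‖ ≤ ((12 / 5) * S * (T x ^ 2)⁻¹ + (25 / 9) * R b ^ 2 * (T x ^ 4)⁻¹ +
        3 * R b ^ 4 * (T x ^ 6)⁻¹) * T x ^ 3 / 20 := by
      rw [e2]
      refine (mb3 hN hx _ hm2 _ hK ?_).2
      intro s hsx
      have hs' : s ∈ Ico (0 : ℝ) 1 := ⟨hx.1.trans hsx.1.le, hsx.2⟩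
      have e3 : (2 * (D b x)⁻¹ ^ 2) • D b s • (H s * p s) - (2 * (D 0 x)⁻¹ ^ 2) • D 0 s • (H s * p0 s)
          = (2 * ((D b x)⁻¹ ^ 2 * D b s)) • (H s * (p s - p0 s)) +
            (2 * ((D b x)⁻¹ ^ 2 * D b s - (D 0 x)⁻¹ ^ 2 * D 0 s)) • (H s * p0 s) := by
        simp only [Algebra.smul_def, map_mul, map_sub, map_pow, map_ofNat]
        ring
      rw [e3]
      refine (norm_add_le _ _).trans ?_
      rw [norm_smul, norm_smul, norm_mul (2 : ℂ), norm_mul (2 : ℂ),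
        norm_mul ((D b x)⁻¹ ^ 2) (D b s), Complex.norm_two, norm_pow]
      have h4 : ‖(D b x)⁻¹‖ ^ 2 * ‖D b s‖ ≤ (6 / 5) * (T x ^ 2)⁻¹ := by
        calc ‖(D b x)⁻¹‖ ^ 2 * ‖D b s‖ ≤ ‖(D b x)⁻¹‖ ^ 2 * ((6 / 5) * ‖D b x‖) := by
              gcongr
              exact d_up hD hb hx ⟨hsx.1.le, hsx.2.le⟩
          _ = (6 / 5) * (‖(D b x)⁻¹‖ * (‖(D b x)⁻¹‖ * ‖D b x‖)) := by ring
          _ = (6 / 5) * ‖(D b x)⁻¹‖ := by
              rw [norm_inv, inv_mul_cancel₀ (norm_ne_zero_iff.2 h0), mul_one]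
          _ ≤ _ := by gcongr
      have h5 := Dker hD hb hR hx hsx
      have h6 : ‖H s * (p s - p0 s)‖ ≤ ‖H s‖ * S :=
        (norm_mul_le _ _).trans (mul_le_mul_of_nonneg_left (hS s hs') (norm_nonneg _))
      have h7 : ‖H s * p0 s‖ ≤ ‖H s‖ * (5 / 4) :=
        (norm_mul_le _ _).trans (mul_le_mul_of_nonneg_left (p_le hs0 hs') (norm_nonneg _))
      calc 2 * (‖(D b x)⁻¹‖ ^ 2 * ‖D b s‖) * ‖H s * (p s - p0 s)‖ +
            2 * ‖(D b x)⁻¹ ^ 2 * D b s - (D 0 x)⁻¹ ^ 2 * D 0 s‖ * ‖H s * p0 s‖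
          ≤ 2 * ((6 / 5) * (T x ^ 2)⁻¹) * (‖H s‖ * S) +
            2 * ((10 / 9) * R b ^ 2 * (T x ^ 4)⁻¹ + (6 / 5) * R b ^ 4 * (T x ^ 6)⁻¹) *
              (‖H s‖ * (5 / 4)) := by gcongr
        _ = _ := by ring
    have h8 : ((12 / 5) * S * (T x ^ 2)⁻¹ + (25 / 9) * R b ^ 2 * (T x ^ 4)⁻¹ +
        3 * R b ^ 4 * (T x ^ 6)⁻¹) * T x ^ 3 / 20 ≤ (3 / 25) * S + (3 / 10) * R b := by
      have e4 : ((12 / 5) * S * (T x ^ 2)⁻¹ + (25 / 9) * R b ^ 2 * (T x ^ 4)⁻¹ +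
        3 * R b ^ 4 * (T x ^ 6)⁻¹) * T x ^ 3 / 20 =
          (3 / 25) * S * T x + (5 / 36) * R b * (R b / T x) + (3 / 20) * R b * (R b / T x) ^ 3 := by
        field_simp
        ring
      rw [e4]
      have h9 : R b / T x ≤ 1 := (div_le_one hT).2 hc
      have h10 : 0 ≤ R b / T x := by positivity
      have h11 : (R b / T x) ^ 3 ≤ 1 := pow_le_one₀ h10 h9
      have h12 : (3 / 25) * S * T x ≤ (3 / 25) * S * 1 := by gcongr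
      have h13 : (5 / 36) * R b * (R b / T x) ≤ (5 / 36) * R b * 1 := by gcongr
      have h14 : (3 / 20) * R b * (R b / T x) ^ 3 ≤ (3 / 20) * R b * 1 := by gcongr
      linarith
    have h15 := hs.bp x hx
    have h16 := hs0.bp x hx
    have e5 : (2 : ℂ) • (p x - p0 x) = (p x ^ 2 - p0 x ^ 2) -
        ((p x - 1) + (p0 x - 1)) * (p x - p0 x) := by
      rw [two_smul]
      ring
    have h17 : ‖((p x - 1) + (p0 x - 1)) * (p x - p0 x)‖ ≤ (1 / 2) * ‖p x - p0 x‖ := by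
      refine (norm_mul_le _ _).trans (mul_le_mul_of_nonneg_right ?_ (norm_nonneg _))
      exact (norm_add_le _ _).trans (by linarith)
    have h18 : 2 * ‖p x - p0 x‖ ≤ ((3 / 25) * S + (3 / 10) * R b) + (1 / 2) * ‖p x - p0 x‖ := by
      calc 2 * ‖p x - p0 x‖ = ‖(2 : ℂ) • (p x - p0 x)‖ := by rw [norm_smul, Complex.norm_two]
        _ = ‖(p x ^ 2 - p0 x ^ 2) - ((p x - 1) + (p0 x - 1)) * (p x - p0 x)‖ := by rw [e5]
        _ ≤ ‖p x ^ 2 - p0 x ^ 2‖ + ‖((p x - 1) + (p0 x - 1)) * (p x - p0 x)‖ := norm_sub_le _ _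
        _ ≤ _ := add_le_add (h3.trans h8) h17
    nlinarith

lemma p_diff (hD : S_D) {H : ℝ → A} (hN : NB H (1 / 20)) {b : ℂ} (hb : b ∈ Om) (hR : 0 < R b)
    {p q E p0 q0 E0 : ℝ → A}
    (hs : Sol H b p q E) (hs0 : Sol H 0 p0 q0 E0) : ∀ x ∈ Ico (0 : ℝ) 1,
    ‖p x - p0 x‖ ≤ R b / 4 := by
  intro x hx
  have h := sup_trick (fun x => ‖p x - p0 x‖) (5 / 2) (1 / 10) (R b / 5)
    (fun x hx => (norm_sub_le _ _).trans (by linarith [p_le hs hx, p_le hs0 hx]))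
    (by norm_num) (fun S hS x hx => p_step hD hN hb hR hs hs0 S hS x hx) x hx
  refine h.trans ?_
  rw [div_le_iff₀ (by norm_num)]
  linarith

lemma q_diff (hD : S_D) {H : ℝ → A} (hN : NB H (1 / 20)) {b : ℂ} (hb : b ∈ Om) (hR : 0 < R b)
    {p q E p0 q0 E0 : ℝ → A}
    (hs : Sol H b p q E) (hs0 : Sol H 0 p0 q0 E0) : ∀ x ∈ Ico (0 : ℝ) 1,
    ‖q x - q0 x‖ ≤ R b / 2 := by
  intro x hx
  have e : q x - q0 x = (q x * q0 x) * -(p x - p0 x) := by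
    have h1 := hs.pq x hx
    have h2 := hs0.pq x hx
    linear_combination (q0 x) * h1 - (q x) * h2
  rw [e]
  refine (norm_mul_le _ _).trans ?_
  rw [norm_neg]
  calc ‖q x * q0 x‖ * ‖p x - p0 x‖ ≤ (‖q x‖ * ‖q0 x‖) * (R b / 4) := by
        gcongr
        · exact norm_mul_le _ _
        · exact p_diff hD hN hb hR hs hs0 x hx
    _ ≤ ((4 / 3) * (4 / 3)) * (R b / 4) := by
        gcongr
        · exact q_le hs hx
        · exact q_le hs0 hx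
    _ ≤ R b / 2 := by linarith

lemma kE_meas (hD : S_D) {H : ℝ → A} (hN : NB H (1 / 20)) {b : ℂ} (hb : b ∈ Om)
    {p q E : ℝ → A}
    (hs : Sol H b p q E) {x : ℝ} (hx : x ∈ Ico (0 : ℝ) 1) :
    AEStronglyMeasurable (fun s => (D b s)⁻¹ • (H s * q s * E s)) (volume.restrict (Ioo x 1)) :=
  (c_measC ((D_cont hD hb).inv₀ (fun s hs => (d_lower hD hb hs).1)) hx).smul
    (((H_meas hN hx).mul (c_meas hs.cq hx)).mul (c_meas hs.cE hx))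

lemma Tsq_le {s : ℝ} (hs : s ∈ Ico (0 : ℝ) 1) : (T s ^ 2)⁻¹ ≤ (T s ^ 3)⁻¹ := by
  have hT := T_pos hs.2
  have hT1 := T_le hs
  apply inv_anti₀ (by positivity)
  calc T s ^ 3 = T s ^ 2 * T s := by ring
    _ ≤ T s ^ 2 * 1 := by gcongr
    _ = _ := by ring

lemma kE_bd (hD : S_D) {H : ℝ → A} {b : ℂ} (hb : b ∈ Om) {p q E : ℝ → A}
    (hs : Sol H b p q E) {s : ℝ} (hs' : s ∈ Ico (0 : ℝ) 1) :
    ‖(D b s)⁻¹ • (H s * q s * E s)‖ ≤ 2 * (‖H s‖ * (1 - s) ^ (-(3 / 4) : ℝ)) := by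
  obtain ⟨h0, -, -, hi⟩ := d_lower hD hb hs'
  rw [norm_smul, gT hs'.2]
  calc ‖(D b s)⁻¹‖ * ‖H s * q s * E s‖ ≤ (T s ^ 3)⁻¹ * ((‖H s‖ * (4 / 3)) * (5 / 4)) := by
        have hT := T_pos hs'.2
        gcongr
        · exact hi.trans (Tsq_le hs')
        · refine (norm_mul_le _ _).trans ?_
          gcongr
          · refine (norm_mul_le _ _).trans ?_
            gcongr
            exact q_le hs hs'
          · exact E_le hs hs'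
    _ ≤ _ := by
        have hT := T_pos hs'.2
        have : 0 ≤ (T s ^ 3)⁻¹ * ‖H s‖ := by positivity
        nlinarith

lemma E_step (hD : S_D) {H : ℝ → A} (hN : NB H (1 / 20)) {b : ℂ} (hb : b ∈ Om) (hR : 0 < R b)
    {p q E p0 q0 E0 : ℝ → A}
    (hs : Sol H b p q E) (hs0 : Sol H 0 p0 q0 E0) (S : ℝ)
    (hS : ∀ x ∈ Ico (0 : ℝ) 1, ‖E x - E0 x‖ ≤ S) : ∀ x ∈ Ico (0 : ℝ) 1,
    ‖E x - E0 x‖ ≤ (1 / 10) * S + R b / 5 := by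
  intro x hx
  have hS0 : 0 ≤ S := (norm_nonneg _).trans (hS x hx)
  have hm := kE_meas hD hN hb hs hx
  have hm0 := kE_meas hD hN zero_Om hs0 hx
  have hI := (mb1 hN hx _ hm 2 (by norm_num)
    (fun s hsx => kE_bd hD hb hs ⟨hx.1.trans hsx.1.le, hsx.2⟩)).1
  have hI0 := (mb1 hN hx _ hm0 2 (by norm_num)
    (fun s hsx => kE_bd hD zero_Om hs0 ⟨hx.1.trans hsx.1.le, hsx.2⟩)).1
  have e1 := hs.eE x hx
  have e0 := hs0.eE x hx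
  rw [int_eq hx] at e1 e0
  have hm2 : AEStronglyMeasurable (fun s => (D b s)⁻¹ • (H s * q s * E s) -
      (D 0 s)⁻¹ • (H s * q0 s * E0 s)) (volume.restrict (Ioo x 1)) := hm.sub hm0
  have e2 : E x - E0 x = ∫ s in Ioo x 1, ((D b s)⁻¹ • (H s * q s * E s) -
      (D 0 s)⁻¹ • (H s * q0 s * E0 s)) := by
    rw [integral_sub hI hI0, e1, e0]
    ring
  rw [e2]
  refine (mb1 hN hx _ hm2 (4 * R b + (4 / 3) * S) (by positivity) ?_).2.trans ?_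
  · intro s hsx
    have hs' : s ∈ Ico (0 : ℝ) 1 := ⟨hx.1.trans hsx.1.le, hsx.2⟩
    obtain ⟨h0, -, -, hi⟩ := d_lower hD zero_Om hs'
    have hT := T_pos hs'.2
    have e3 : (D b s)⁻¹ • (H s * q s * E s) - (D 0 s)⁻¹ • (H s * q0 s * E0 s) =
        ((D b s)⁻¹ - (D 0 s)⁻¹) • (H s * q s * E s) +
        (D 0 s)⁻¹ • (H s * ((q s - q0 s) * E s + q0 s * (E s - E0 s))) := by
      simp only [Algebra.smul_def, map_sub]
      ring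
    rw [e3, gT hs'.2]
    refine (norm_add_le _ _).trans ?_
    rw [norm_smul, norm_smul]
    have h1 : ‖H s * q s * E s‖ ≤ ‖H s‖ * (4 / 3) * (5 / 4) := by
      refine (norm_mul_le _ _).trans ?_
      gcongr
      · refine (norm_mul_le _ _).trans ?_
        gcongr
        exact q_le hs hs'
      · exact E_le hs hs'
    have h2 : ‖(q s - q0 s) * E s + q0 s * (E s - E0 s)‖ ≤ (R b / 2) * (5 / 4) + (4 / 3) * S := by
      refine (norm_add_le _ _).trans (add_le_add ?_ ?_)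
      · refine (norm_mul_le _ _).trans ?_
        gcongr
        · exact q_diff hD hN hb hR hs hs0 s hs'
        · exact E_le hs hs'
      · refine (norm_mul_le _ _).trans ?_
        gcongr
        · exact q_le hs0 hs'
        · exact hS s hs'
    have h3 : ‖H s * ((q s - q0 s) * E s + q0 s * (E s - E0 s))‖ ≤
        ‖H s‖ * ((R b / 2) * (5 / 4) + (4 / 3) * S) :=
      (norm_mul_le _ _).trans (mul_le_mul_of_nonneg_left h2 (norm_nonneg _))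
    calc ‖(D b s)⁻¹ - (D 0 s)⁻¹‖ * ‖H s * q s * E s‖ +
          ‖(D 0 s)⁻¹‖ * ‖H s * ((q s - q0 s) * E s + q0 s * (E s - E0 s))‖
        ≤ (2 * R b * (T s ^ 3)⁻¹) * (‖H s‖ * (4 / 3) * (5 / 4)) +
          (T s ^ 3)⁻¹ * (‖H s‖ * ((R b / 2) * (5 / 4) + (4 / 3) * S)) := by
          gcongr
          · exact Dinvsub hD hb hR hs'
          · exact hi.trans (Tsq_le hs')
      _ = ((T s ^ 3)⁻¹ * ‖H s‖) * ((10 / 3 + 5 / 8) * R b + (4 / 3) * S) := by ring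
      _ ≤ ((T s ^ 3)⁻¹ * ‖H s‖) * (4 * R b + (4 / 3) * S) := by
          gcongr
          norm_num
      _ = _ := by ring
  · linarith

lemma E_diff (hD : S_D) {H : ℝ → A} (hN : NB H (1 / 20)) {b : ℂ} (hb : b ∈ Om) (hR : 0 < R b)
    {p q E p0 q0 E0 : ℝ → A}
    (hs : Sol H b p q E) (hs0 : Sol H 0 p0 q0 E0) : ∀ x ∈ Ico (0 : ℝ) 1,
    ‖E x - E0 x‖ ≤ R b / 4 := by
  intro x hx
  have h := sup_trick (fun x => ‖E x - E0 x‖) (5 / 2) (1 / 10) (R b / 5)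
    (fun x hx => (norm_sub_le _ _).trans (by linarith [E_le hs hx, E_le hs0 hx]))
    (by norm_num) (fun S hS x hx => E_step hD hN hb hR hs hs0 S hS x hx) x hx
  refine h.trans ?_
  rw [div_le_iff₀ (by norm_num)]
  linarith

lemma tau_diff (hD : S_D) {H : ℝ → A} (hN : NB H (1 / 20)) {b : ℂ} (hb : b ∈ Om) (hR : 0 < R b)
    {p q E p0 q0 E0 : ℝ → A}
    (hs : Sol H b p q E) (hs0 : Sol H 0 p0 q0 E0) :
    ‖tauOf b q - tauOf 0 q0‖ ≤ 16 * R b := by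
  have hx : (0 : ℝ) ∈ Ico (0 : ℝ) 1 := by simp
  unfold tauOf
  rw [int_eq hx, int_eq hx]
  have hm : AEStronglyMeasurable (fun x => (D b x)⁻¹ • q x) (volume.restrict (Ioo 0 1)) :=
    (c_measC ((D_cont hD hb).inv₀ (fun s hs => (d_lower hD hb hs).1)) hx).smul (c_meas hs.cq hx)
  have hm0 : AEStronglyMeasurable (fun x => (D 0 x)⁻¹ • q0 x) (volume.restrict (Ioo 0 1)) :=
    (c_measC ((D_cont hD zero_Om).inv₀ (fun s hs => (d_lower hD zero_Om hs).1)) hx).smul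
      (c_meas hs0.cq hx)
  have hbd : ∀ (b : ℂ) (p q E : ℝ → A), b ∈ Om → Sol H b p q E → ∀ s ∈ Ioo (0 : ℝ) 1,
      ‖(D b s)⁻¹ • q s‖ ≤ 2 * (1 - s) ^ (-(3 / 4) : ℝ) := by
    intro b p q E hb hs s hsx
    have hs' : s ∈ Ico (0 : ℝ) 1 := ⟨hsx.1.le, hsx.2⟩
    obtain ⟨h0, -, -, hi⟩ := d_lower hD hb hs'
    have hT := T_pos hs'.2
    rw [norm_smul, gT hs'.2]
    calc ‖(D b s)⁻¹‖ * ‖q s‖ ≤ (T s ^ 3)⁻¹ * (4 / 3) := by
          gcongr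
          · exact hi.trans (Tsq_le hs')
          · exact q_le hs hs'
      _ ≤ _ := by
          have : 0 ≤ (T s ^ 3)⁻¹ := by positivity
          linarith
  have hI := (mb2 hx _ hm 2 (by norm_num) (hbd b p q E hb hs)).1
  have hI0 := (mb2 hx _ hm0 2 (by norm_num) (hbd 0 p0 q0 E0 zero_Om hs0)).1
  rw [← integral_sub hI hI0]
  have hm2 : AEStronglyMeasurable (fun x => (D b x)⁻¹ • q x - (D 0 x)⁻¹ • q0 x)
    (volume.restrict (Ioo 0 1)) := hm.sub hm0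
  refine (mb2 hx _ hm2 (4 * R b) (by positivity) ?_).2.trans (by linarith)
  intro s hsx
  have hs' : s ∈ Ico (0 : ℝ) 1 := ⟨hsx.1.le, hsx.2⟩
  obtain ⟨h0, -, -, hi⟩ := d_lower hD zero_Om hs'
  have hT := T_pos hs'.2
  have e3 : (D b s)⁻¹ • q s - (D 0 s)⁻¹ • q0 s =
      ((D b s)⁻¹ - (D 0 s)⁻¹) • q s + (D 0 s)⁻¹ • (q s - q0 s) := by
    simp only [Algebra.smul_def, map_sub]
    ring
  rw [e3, gT hs'.2]
  refine (norm_add_le _ _).trans ?_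
  rw [norm_smul, norm_smul]
  calc ‖(D b s)⁻¹ - (D 0 s)⁻¹‖ * ‖q s‖ + ‖(D 0 s)⁻¹‖ * ‖q s - q0 s‖
      ≤ (2 * R b * (T s ^ 3)⁻¹) * (4 / 3) + (T s ^ 3)⁻¹ * (R b / 2) := by
        gcongr
        · exact Dinvsub hD hb hR hs'
        · exact q_le hs hs'
        · exact hi.trans (Tsq_le hs')
        · exact q_diff hD hN hb hR hs hs0 s hs'
    _ ≤ _ := by
        have : 0 ≤ (T s ^ 3)⁻¹ * R b := by positivity
        nlinarith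

lemma cube_le (u v : ℂ) (t r : ℝ) (ht : 0 < t) (hr : 0 ≤ r) (hu : ‖u‖ ≤ (t ^ 2)⁻¹)
    (hv : ‖v‖ ≤ (t ^ 2)⁻¹) (huv : ‖u - v‖ ≤ 2 * r * (t ^ 3)⁻¹) :
    ‖u ^ 3 - v ^ 3‖ ≤ 6 * r * (t ^ 7)⁻¹ := by
  have e : u ^ 3 - v ^ 3 = (u - v) * (u * u + u * v + v * v) := by ring
  rw [e, norm_mul]
  have h1 : ‖u * u + u * v + v * v‖ ≤ 3 * ((t ^ 2)⁻¹ * (t ^ 2)⁻¹) := by
    calc ‖u * u + u * v + v * v‖ ≤ ‖u * u‖ + ‖u * v‖ + ‖v * v‖ := norm_add₃_le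
      _ = ‖u‖ * ‖u‖ + ‖u‖ * ‖v‖ + ‖v‖ * ‖v‖ := by rw [norm_mul, norm_mul, norm_mul]
      _ ≤ (t ^ 2)⁻¹ * (t ^ 2)⁻¹ + (t ^ 2)⁻¹ * (t ^ 2)⁻¹ + (t ^ 2)⁻¹ * (t ^ 2)⁻¹ := by gcongr
      _ = _ := by ring
  calc ‖u - v‖ * ‖u * u + u * v + v * v‖ ≤ (2 * r * (t ^ 3)⁻¹) * (3 * ((t ^ 2)⁻¹ * (t ^ 2)⁻¹)) := by
        gcongr
    _ = _ := by field_simp; ring

lemma Eq3_diff (E E0 q q0 : A) (r : ℝ) (hr : 0 ≤ r) (hE : ‖E‖ ≤ 5 / 4) (hE0 : ‖E0‖ ≤ 5 / 4)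
    (hq : ‖q‖ ≤ 4 / 3) (hq0 : ‖q0‖ ≤ 4 / 3) (h1 : ‖E - E0‖ ≤ r / 4) (h2 : ‖q - q0‖ ≤ r / 2) :
    ‖E * q ^ 3 - E0 * q0 ^ 3‖ ≤ 4 * r ∧ ‖E * q ^ 3‖ ≤ 3 ∧ ‖E * q - E0 * q0‖ ≤ r := by
  have hq3 : ‖q ^ 3‖ ≤ (4 / 3) ^ 3 := (norm_pow_le q 3).trans (pow_le_pow_left₀ (norm_nonneg _) hq 3)
  refine ⟨?_, ?_, ?_⟩
  · have e : E * q ^ 3 - E0 * q0 ^ 3 = (E - E0) * q ^ 3 +
        E0 * ((q - q0) * (q * q + q * q0 + q0 * q0)) := by ring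
    rw [e]
    have h3 : ‖q * q + q * q0 + q0 * q0‖ ≤ 3 * ((4 / 3) * (4 / 3)) := by
      calc ‖q * q + q * q0 + q0 * q0‖ ≤ ‖q * q‖ + ‖q * q0‖ + ‖q0 * q0‖ := norm_add₃_le
        _ ≤ ‖q‖ * ‖q‖ + ‖q‖ * ‖q0‖ + ‖q0‖ * ‖q0‖ := by
            gcongr
            · exact norm_mul_le _ _
            · exact norm_mul_le _ _
            · exact norm_mul_le _ _
        _ ≤ (4 / 3) * (4 / 3) + (4 / 3) * (4 / 3) + (4 / 3) * (4 / 3) := by gcongr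
        _ = _ := by ring
    calc ‖(E - E0) * q ^ 3 + E0 * ((q - q0) * (q * q + q * q0 + q0 * q0))‖
        ≤ ‖E - E0‖ * ‖q ^ 3‖ + ‖E0‖ * (‖q - q0‖ * ‖q * q + q * q0 + q0 * q0‖) := by
          refine (norm_add_le _ _).trans (add_le_add (norm_mul_le _ _) ?_)
          refine (norm_mul_le _ _).trans ?_
          gcongr
          exact norm_mul_le _ _
      _ ≤ (r / 4) * (4 / 3) ^ 3 + (5 / 4) * ((r / 2) * (3 * ((4 / 3) * (4 / 3)))) := by gcongr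
      _ ≤ 4 * r := by linarith
  · calc ‖E * q ^ 3‖ ≤ ‖E‖ * ‖q ^ 3‖ := norm_mul_le _ _
      _ ≤ (5 / 4) * (4 / 3) ^ 3 := by gcongr
      _ ≤ 3 := by norm_num
  · have e : E * q - E0 * q0 = (E - E0) * q + E0 * (q - q0) := by ring
    rw [e]
    calc ‖(E - E0) * q + E0 * (q - q0)‖ ≤ ‖E - E0‖ * ‖q‖ + ‖E0‖ * ‖q - q0‖ :=
          (norm_add_le _ _).trans (add_le_add (norm_mul_le _ _) (norm_mul_le _ _))
      _ ≤ (r / 4) * (4 / 3) + (5 / 4) * (r / 2) := by gcongr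
      _ ≤ r := by linarith

lemma ups_diff (hD : S_D) {H : ℝ → A} (hN : NB H (1 / 20)) {b : ℂ} (hb : b ∈ Om) (hR : 0 < R b)
    {p q E p0 q0 E0 : ℝ → A}
    (hs : Sol H b p q E) (hs0 : Sol H 0 p0 q0 E0) :
    ‖upsOf b q E - upsOf 0 q0 E0‖ ≤ 100 * R b := by
  have hx : (0 : ℝ) ∈ Ico (0 : ℝ) 1 := by simp
  have hT0 : T 0 = 1 := by unfold T; norm_num
  unfold upsOf
  rw [int_eq hx, int_eq hx]
  have hmm : ∀ (b : ℂ) (p q E : ℝ → A), b ∈ Om → Sol H b p q E → AEStronglyMeasurable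
      (fun x : ℝ => ((1 - (x : ℂ)) * (D b x)⁻¹ ^ 3) • (E x * q x ^ 3))
        (volume.restrict (Ioo 0 1)) := by
    intro b p q E hb hs
    have hc : ContinuousOn (fun x : ℝ => ((1 - (x : ℂ)) * (D b x)⁻¹ ^ 3)) (Ico (0 : ℝ) 1) := by
      have h1 : ContinuousOn (fun x : ℝ => (1 - (x : ℂ))) (Ico (0 : ℝ) 1) :=
        (continuous_const.sub Complex.continuous_ofReal).continuousOn
      exact h1.mul (((D_cont hD hb).inv₀ (fun s hs => (d_lower hD hb hs).1)).pow 3)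
    exact (c_measC hc hx).smul ((c_meas hs.cE hx).mul ((c_meas hs.cq hx).pow 3))
  have hm := hmm b p q E hb hs
  have hm0 := hmm 0 p0 q0 E0 zero_Om hs0
  have hnorm : ∀ s ∈ Ico (0 : ℝ) 1, ‖(1 - (s : ℂ))‖ = T s ^ 4 := by
    intro s hs'
    rw [T4 hs'.2]
    have : (1 - (s : ℂ)) = ((1 - s : ℝ) : ℂ) := by push_cast; ring
    rw [this, Complex.norm_real, Real.norm_eq_abs, abs_of_nonneg (by linarith [hs'.2])]
  have hbd : ∀ (b : ℂ) (p q E : ℝ → A), b ∈ Om → Sol H b p q E → ∀ s ∈ Ioo (0 : ℝ) 1,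
      ‖((1 - (s : ℂ)) * (D b s)⁻¹ ^ 3) • (E s * q s ^ 3)‖ ≤ 3 * (1 - s) ^ (-(3 / 4) : ℝ) := by
    intro b p q E hb hs s hsx
    have hs' : s ∈ Ico (0 : ℝ) 1 := ⟨hsx.1.le, hsx.2⟩
    obtain ⟨h0, -, -, hi⟩ := d_lower hD hb hs'
    have hT := T_pos hs'.2
    have h3 := (Eq3_diff (E s) (E s) (q s) (q s) 0 le_rfl (E_le hs hs') (E_le hs hs') (q_le hs hs')
      (q_le hs hs') (by simp) (by simp)).2.1
    rw [norm_smul, gT hs'.2, norm_mul, norm_pow, hnorm s hs']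
    calc T s ^ 4 * ‖(D b s)⁻¹‖ ^ 3 * ‖E s * q s ^ 3‖ ≤ T s ^ 4 * ((T s ^ 2)⁻¹) ^ 3 * 3 := by
          gcongr
      _ = 3 * (T s ^ 2)⁻¹ := by field_simp
      _ ≤ _ := by
          gcongr 3 * ?_
          exact Tsq_le hs'
  have hI := (mb2 hx _ hm 3 (by norm_num) (hbd b p q E hb hs)).1
  have hI0 := (mb2 hx _ hm0 3 (by norm_num) (hbd 0 p0 q0 E0 zero_Om hs0)).1
  have hm2 : AEStronglyMeasurable (fun x : ℝ => ((1 - (x : ℂ)) * (D b x)⁻¹ ^ 3) • (E x * q x ^ 3) -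
      ((1 - (x : ℂ)) * (D 0 x)⁻¹ ^ 3) • (E0 x * q0 x ^ 3))
    (volume.restrict (Ioo 0 1)) := hm.sub hm0
  have e1 : (D b 0)⁻¹ • (E 0 * q 0) -
      (∫ x in Ioo (0 : ℝ) 1, ((1 - (x : ℂ)) * (D b x)⁻¹ ^ 3) • (E x * q x ^ 3)) -
      ((D 0 0)⁻¹ • (E0 0 * q0 0) -
      ∫ x in Ioo (0 : ℝ) 1, ((1 - (x : ℂ)) * (D 0 x)⁻¹ ^ 3) • (E0 x * q0 x ^ 3)) =
      ((D b 0)⁻¹ • (E 0 * q 0) - (D 0 0)⁻¹ • (E0 0 * q0 0)) -
      ∫ x in Ioo (0 : ℝ) 1, (((1 - (x : ℂ)) * (D b x)⁻¹ ^ 3) • (E x * q x ^ 3) -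
      ((1 - (x : ℂ)) * (D 0 x)⁻¹ ^ 3) • (E0 x * q0 x ^ 3)) := by
    rw [integral_sub hI hI0]
    abel
  rw [e1]
  refine (norm_sub_le _ _).trans ?_
  have h1 : ‖(D b 0)⁻¹ • (E 0 * q 0) - (D 0 0)⁻¹ • (E0 0 * q0 0)‖ ≤ 5 * R b := by
    have e2 : (D b 0)⁻¹ • (E 0 * q 0) - (D 0 0)⁻¹ • (E0 0 * q0 0) =
        ((D b 0)⁻¹ - (D 0 0)⁻¹) • (E 0 * q 0) + (D 0 0)⁻¹ • (E 0 * q 0 - E0 0 * q0 0) := by
      simp only [Algebra.smul_def, map_sub]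
      ring
    rw [e2]
    have h2 := Dinvsub hD hb hR hx
    obtain ⟨-, -, -, hi⟩ := d_lower hD zero_Om hx
    rw [hT0] at h2 hi
    have h3 := (Eq3_diff (E 0) (E0 0) (q 0) (q0 0) (R b) hR.le (E_le hs hx) (E_le hs0 hx)
      (q_le hs hx) (q_le hs0 hx) (E_diff hD hN hb hR hs hs0 0 hx)
      (q_diff hD hN hb hR hs hs0 0 hx)).2.2
    refine (norm_add_le _ _).trans ?_
    rw [norm_smul, norm_smul]
    calc ‖(D b 0)⁻¹ - (D 0 0)⁻¹‖ * ‖E 0 * q 0‖ + ‖(D 0 0)⁻¹‖ * ‖E 0 * q 0 - E0 0 * q0 0‖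
        ≤ (2 * R b * (1 ^ 3)⁻¹) * ((5 / 4) * (4 / 3)) + (1 ^ 2)⁻¹ * R b := by
          gcongr
          refine (norm_mul_le _ _).trans ?_
          gcongr
          · exact E_le hs hx
          · exact q_le hs hx
      _ ≤ _ := by norm_num; linarith
  have h2 : ‖∫ x in Ioo (0 : ℝ) 1, (((1 - (x : ℂ)) * (D b x)⁻¹ ^ 3) • (E x * q x ^ 3) -
      ((1 - (x : ℂ)) * (D 0 x)⁻¹ ^ 3) • (E0 x * q0 x ^ 3))‖ ≤ (22 * R b) * 4 := by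
    refine (mb2 hx _ hm2 (22 * R b) (by positivity) ?_).2
    intro s hsx
    have hs' : s ∈ Ico (0 : ℝ) 1 := ⟨hsx.1.le, hsx.2⟩
    obtain ⟨h0, -, -, hi⟩ := d_lower hD zero_Om hs'
    obtain ⟨-, -, -, hib⟩ := d_lower hD hb hs'
    have hT := T_pos hs'.2
    have h3 := Eq3_diff (E s) (E0 s) (q s) (q0 s) (R b) hR.le (E_le hs hs') (E_le hs0 hs')
      (q_le hs hs') (q_le hs0 hs') (E_diff hD hN hb hR hs hs0 s hs')
      (q_diff hD hN hb hR hs hs0 s hs')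
    have h4 := cube_le _ _ _ _ hT hR.le hib hi (Dinvsub hD hb hR hs')
    have e3 : ((1 - (s : ℂ)) * (D b s)⁻¹ ^ 3) • (E s * q s ^ 3) -
      ((1 - (s : ℂ)) * (D 0 s)⁻¹ ^ 3) • (E0 s * q0 s ^ 3) =
        ((1 - (s : ℂ)) * ((D b s)⁻¹ ^ 3 - (D 0 s)⁻¹ ^ 3)) • (E s * q s ^ 3) +
        ((1 - (s : ℂ)) * (D 0 s)⁻¹ ^ 3) • (E s * q s ^ 3 - E0 s * q0 s ^ 3) := by
      simp only [Algebra.smul_def, map_sub, map_mul]
      ring
    rw [e3, gT hs'.2]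
    refine (norm_add_le _ _).trans ?_
    rw [norm_smul, norm_smul, norm_mul (1 - (s : ℂ)), norm_mul (1 - (s : ℂ)),
      norm_pow (D 0 s)⁻¹, hnorm s hs']
    calc T s ^ 4 * ‖(D b s)⁻¹ ^ 3 - (D 0 s)⁻¹ ^ 3‖ * ‖E s * q s ^ 3‖ +
          T s ^ 4 * ‖(D 0 s)⁻¹‖ ^ 3 * ‖E s * q s ^ 3 - E0 s * q0 s ^ 3‖
        ≤ T s ^ 4 * (6 * R b * (T s ^ 7)⁻¹) * 3 + T s ^ 4 * ((T s ^ 2)⁻¹) ^ 3 * (4 * R b) := by
          gcongr
          · exact h3.2.1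
          · exact h3.1
      _ = 18 * R b * (T s ^ 3)⁻¹ + 4 * R b * (T s ^ 2)⁻¹ := by
          field_simp
          norm_num
      _ ≤ 18 * R b * (T s ^ 3)⁻¹ + 4 * R b * (T s ^ 3)⁻¹ := by
          gcongr 18 * R b * (T s ^ 3)⁻¹ + 4 * R b * ?_
          exact Tsq_le hs'
      _ = _ := by ring
  linarith

end main

/-- **UN-HB** -/
theorem th (hD : S_D) (hE : S_EX) (hUps : S_UPS) : S_HB := by
  refine ⟨100, by norm_num, ?_⟩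
  intro A _ _ _ _ H b hN hb
  rcases eq_or_ne b 0 with rfl | hne
  · simp
  have hR : 0 < R b := Real.rpow_pos_of_pos (norm_pos_iff.2 hne) _
  obtain ⟨p, q, E, hs⟩ := hE A H b hN hb
  obtain ⟨p0, q0, E0, hs0⟩ := hE A H 0 hN zero_Om
  obtain ⟨u1, t1⟩ := hUps A H b p q E hN hb hs
  obtain ⟨u0, t0⟩ := hUps A H 0 p0 q0 E0 hN zero_Om hs0
  rw [u1, t1, u0, t0]
  have h1 := ups_diff hD hN hb hR hs hs0
  have h2 := tau_diff hD hN hb hR hs hs0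
  refine ⟨h1, h2.trans ?_⟩
  show 16 * R b ≤ 100 * R b
  linarith

end Pool.Agent.W475.UN.HB
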